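import Pool.Agent.Helper19.HO.St

/-!
# HO (MP_dbe07f_lc), module NSQ: no long definable sequences of disjoint stationary sets
-/

namespace Pool.Agent.Helper91.HO.NSQ

open Ordinal Cardinal ZFSet Order Pool.Agent.Helper73.HODC Pool.Agent.Helper73.HM
open Pool.Agent.Helper73.HE Pool.Agent.Helper73.HU Pool.Agent.Helper73.HX
open Pool.Agent.Helper19.HN Pool.Agent.Helper19.HO

theorem nsq : StNSQ := by
  classical
  intro κ hκ hF
  by_cases hE : Extendible κ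
  · have h1 : ∀ ν : Cardinal.{0}, ∃ κ₁ : Cardinal.{0}, ν < κ → (2 : Cardinal.{0}) ^ κ₁ < κ ∧
        ∀ (τ : Ordinal.{0}) (X : Set Ordinal.{0}), κ ≤ τ.cof → (∀ a ∈ X, a.cof = ν) →
          NoSeqO κ₁ τ X := by
      intro ν
      by_cases hν : ν < κ
      · obtain ⟨κ₁, -, -, h2, h3⟩ := noSeq_ext Inp.oz Inp.cvo hE hF hν
        exact ⟨κ₁, fun _ => ⟨h2, h3⟩⟩
      · exact ⟨0, fun h => absurd h hν⟩
    choose lam hlam using h1
    exact ⟨κ, lam, le_rfl, fun _ => rfl, fun _ ν hν => (hlam ν hν).1,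
      fun ν hν => ⟨(hlam ν hν).1.le, (hlam ν hν).2⟩⟩
  · obtain ⟨α, hα, h3, h5, h6⟩ := hF
    set k0 : Cardinal.{0} := succ (max κ α.card) with hk0
    have h4 : α ≤ k0.ord := by
      have h7 : α.card < k0 := lt_of_le_of_lt (le_max_right _ _) (Order.lt_succ _)
      exact (Cardinal.lt_ord.2 h7).le
    have hkk : κ ≤ k0 := (le_max_left _ _).trans (Order.le_succ _)
    refine ⟨(2 : Cardinal.{0}) ^ k0, fun _ => k0, hkk.trans (Cardinal.cantor k0).le,
      fun h => absurd h hE, fun h => absurd h hE, fun ν hν => ⟨le_rfl, fun τ X hτ hX => ?_⟩⟩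
    rintro ⟨S, hS1, hS2, hS3, hS4⟩
    exact h6 (Inp.cvo κ τ hκ hτ α k0.ord hα h3 h5 h4 S hS1 hS2
      (fun ξ hξ a ha => by rw [hX a (hS3 ξ hξ a ha)]; exact hν) hS4)

end Pool.Agent.Helper91.HO.NSQ
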